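import Mathlib
import Pool.Agent.Helper36.Ses.HeightK

/-!
# The abstract multiplicity lemma
-/

namespace Seshadri

namespace Place

variable {k κ : Type} [Field k] [Field κ] [Algebra k κ] (v : Place k κ)

/-- elements of order at least `m` -/
def fil (m : ℤ) : AddSubgroup κ where
  carrier := {u | u = 0 ∨ m ≤ v.ord u}
  add_mem' := by
    rintro a b ha hb
    by_cases h1 : a = 0
    · rw [h1, zero_add]; exact hb
    by_cases h2 : b = 0
    · rw [h2, add_zero]; exact ha
    by_cases h3 : a + b = 0
    · left; exact h3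
    right
    have h4 := v.ord_add a b h1 h2 h3
    have := ha.resolve_left h1
    have := hb.resolve_left h2
    omega
  zero_mem' := Or.inl rfl
  neg_mem' := by
    rintro a ha
    rcases ha with ha | ha
    · left; rw [ha, neg_zero]
    · right; rw [v.ord_neg]; exact ha

lemma mem_fil {m : ℤ} {u : κ} : u ∈ v.fil m ↔ u = 0 ∨ m ≤ v.ord u := Iff.rfl

lemma mem_fil_of_le {m : ℤ} {u : κ} (h : m ≤ v.ord u) : u ∈ v.fil m := Or.inr h

lemma fil_mono {m m' : ℤ} (h : m ≤ m') {u : κ} (hu : u ∈ v.fil m') : u ∈ v.fil m := by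
  rcases hu with hu | hu
  · exact Or.inl hu
  · exact Or.inr (h.trans hu)

lemma fil_mul {m m' : ℤ} {a b : κ} (ha : a ∈ v.fil m) (hb : b ∈ v.fil m') :
    a * b ∈ v.fil (m + m') := by
  by_cases h1 : a = 0
  · left; rw [h1, zero_mul]
  by_cases h2 : b = 0
  · left; rw [h2, mul_zero]
  right
  have := ha.resolve_left h1
  have := hb.resolve_left h2
  rw [v.ord_mul a b h1 h2]
  omega

lemma algebraMap_mem_fil (c : k) : algebraMap k κ c ∈ v.fil 0 :=
  Or.inr (by rw [v.ord_algebraMap])

lemma one_mem_fil : (1 : κ) ∈ v.fil 0 := Or.inr (by rw [v.ord_one])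

lemma fil_pow {m : ℤ} {a : κ} (ha : a ∈ v.fil m) (j : ℕ) : a ^ j ∈ v.fil (j * m) := by
  induction j with
  | zero => simpa using v.one_mem_fil
  | succ j ih =>
    rw [pow_succ]
    have := v.fil_mul ih ha
    refine v.fil_mono ?_ this
    push_cast
    linarith

/-- an element of `fil m` whose order is smaller than `m` is zero -/
lemma eq_zero_of_mem_fil {m : ℤ} {a : κ} (ha : a ∈ v.fil m) (h : v.ord a < m) : a = 0 := by
  rcases ha with ha | ha
  · exact ha
  · omega

end Place

section

variable {R : Type} [CommRing R]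

lemma mem_pow_span_pair (ξ ζ : R) (j : ℕ) :
    ∀ g ∈ (Ideal.span {ξ, ζ} : Ideal R) ^ j, ∃ a : ℕ → R,
      g = ∑ i ∈ Finset.range (j + 1), a i * (ξ ^ (j - i) * ζ ^ i) := by
  induction j with
  | zero =>
    intro g _
    exact ⟨fun _ => g, by simp⟩
  | succ j ih =>
    intro g hg
    rw [pow_succ] at hg
    refine Submodule.mul_induction_on hg ?_ ?_
    · intro x hx y hy
      obtain ⟨a, rfl⟩ := ih x hx
      obtain ⟨b₁, b₂, rfl⟩ := Ideal.mem_span_pair.1 hy
      refine ⟨fun i => (if i ≤ j then a i * b₁ else 0) + (if i = 0 then 0 else a (i - 1) * b₂), ?_⟩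
      have e1 : ∑ i ∈ Finset.range (j + 1 + 1), (if i ≤ j then a i * b₁ else 0) *
          (ξ ^ (j + 1 - i) * ζ ^ i) =
          (∑ i ∈ Finset.range (j + 1), a i * (ξ ^ (j - i) * ζ ^ i)) * (b₁ * ξ) := by
        rw [Finset.sum_range_succ, if_neg (by omega), zero_mul, add_zero, Finset.sum_mul]
        apply Finset.sum_congr rfl
        intro i hi
        rw [Finset.mem_range] at hi
        rw [if_pos (by omega), show j + 1 - i = (j - i) + 1 by omega, pow_succ]
        ring
      have e2 : ∑ i ∈ Finset.range (j + 1 + 1), (if i = 0 then 0 else a (i - 1) * b₂) *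
          (ξ ^ (j + 1 - i) * ζ ^ i) =
          (∑ i ∈ Finset.range (j + 1), a i * (ξ ^ (j - i) * ζ ^ i)) * (b₂ * ζ) := by
        rw [Finset.sum_range_succ', if_pos rfl, zero_mul, add_zero, Finset.sum_mul]
        apply Finset.sum_congr rfl
        intro i hi
        rw [Finset.mem_range] at hi
        rw [if_neg (by omega), show j + 1 - (i + 1) = j - i by omega, Nat.add_sub_cancel, pow_succ]
        ring
      rw [mul_add, ← e1, ← e2, ← Finset.sum_add_distrib]
      apply Finset.sum_congr rfl
      intro i _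
      ring
    · rintro x y ⟨a, rfl⟩ ⟨b, rfl⟩
      refine ⟨fun i => a i + b i, ?_⟩
      rw [← Finset.sum_add_distrib]
      apply Finset.sum_congr rfl
      intro i _
      ring

end

/-- (O10) the abstract multiplicity lemma. -/
theorem mult_lemma {k R W : Type} [Field k] [CommRing R] [Algebra k R] [Field W] [Algebra k W]
    (𝔪 : Ideal R) (ξ ζ : R) (h𝔪 : 𝔪 = Ideal.span {ξ, ζ})
    (hres : ∀ u : R, ∃ c : k, u - algebraMap k R c ∈ 𝔪) (v : Place k W) (r : R →ₐ[k] W)
    (N : ℕ) (hN : 0 < N) (hint : ∀ u : R, 0 ≤ v.ord (r u))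
    (hξ0 : r ξ ≠ 0) (hξ : v.ord (r ξ) = N) (hζ0 : r ζ ≠ 0) (hζ : v.ord (r ζ) = N + 1)
    (g : R) (hg : r g = 0) : g ∈ 𝔪 ^ N := by
  -- the order of a monomial
  have hmon : ∀ j i : ℕ, i ≤ j → r ξ ^ (j - i) * r ζ ^ i ≠ 0 ∧
      v.ord (r ξ ^ (j - i) * r ζ ^ i) = (j * N + i : ℤ) := by
    intro j i hij
    refine ⟨mul_ne_zero (pow_ne_zero _ hξ0) (pow_ne_zero _ hζ0), ?_⟩
    rw [v.ord_mul _ _ (pow_ne_zero _ hξ0) (pow_ne_zero _ hζ0), v.ord_pow _ _ hξ0,
      v.ord_pow _ _ hζ0, hξ, hζ]
    have h1 : ((j - i : ℕ) : ℤ) = j - i := by push_cast [Nat.cast_sub hij]; ring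
    rw [h1]
    ring
  -- `r (𝔪 ^ j) ⊆ fil (j N)`
  have hmem : ∀ (j : ℕ), ∀ u ∈ 𝔪 ^ j, r u ∈ v.fil (j * N) := by
    intro j u hu
    rw [h𝔪] at hu
    obtain ⟨a, rfl⟩ := mem_pow_span_pair ξ ζ j u hu
    rw [map_sum]
    refine AddSubgroup.sum_mem _ fun i hi => ?_
    rw [Finset.mem_range] at hi
    rw [map_mul, map_mul, map_pow, map_pow]
    have h1 : r ξ ^ (j - i) * r ζ ^ i ∈ v.fil (j * N) := by
      right
      rw [(hmon j i (by omega)).2]
      omega
    have := v.fil_mul (v.mem_fil_of_le (hint (a i))) h1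
    rwa [zero_add] at this
  have key : ∀ j : ℕ, j ≤ N → g ∈ 𝔪 ^ j := by
    intro j
    induction j with
    | zero => intro _; simp
    | succ j ih =>
      intro hj
      have hgj := ih (by omega)
      have hgj' := hgj
      rw [h𝔪] at hgj'
      obtain ⟨a, ha⟩ := mem_pow_span_pair ξ ζ j g hgj'
      choose c hc using fun i => hres (a i)
      -- the remainder
      have hξm : ξ ∈ 𝔪 := by rw [h𝔪]; exact Ideal.subset_span (by simp)
      have hζm : ζ ∈ 𝔪 := by rw [h𝔪]; exact Ideal.subset_span (by simp)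
      have hrem : g - ∑ i ∈ Finset.range (j + 1), algebraMap k R (c i) * (ξ ^ (j - i) * ζ ^ i) ∈
          𝔪 ^ (j + 1) := by
        rw [ha, ← Finset.sum_sub_distrib]
        refine Ideal.sum_mem _ fun i hi => ?_
        rw [Finset.mem_range] at hi
        rw [← sub_mul, pow_succ']
        refine Ideal.mul_mem_mul (hc i) ?_
        have h1 : 𝔪 ^ j = 𝔪 ^ (j - i) * 𝔪 ^ i := by rw [← pow_add]; congr 1; omega
        rw [h1]
        exact Ideal.mul_mem_mul (Ideal.pow_mem_pow hξm _) (Ideal.pow_mem_pow hζm _)
      set g' := g - ∑ i ∈ Finset.range (j + 1), algebraMap k R (c i) * (ξ ^ (j - i) * ζ ^ i)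
        with hg'
      have hsum : ∑ i ∈ Finset.range (j + 1), algebraMap k W (c i) *
          (r ξ ^ (j - i) * r ζ ^ i) = -r g' := by
        rw [hg', map_sub, hg, map_sum, zero_sub, neg_neg]
        apply Finset.sum_congr rfl
        intro i _
        rw [map_mul, map_mul, map_pow, map_pow, AlgHom.commutes]
      have hc0 : ∀ i, i < j + 1 → c i = 0 := by
        intro i
        induction i using Nat.strong_induction_on with
        | _ i ihi =>
          intro hij
          by_contra hci
          have hterm : algebraMap k W (c i) * (r ξ ^ (j - i) * r ζ ^ i) ∈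
              v.fil (j * N + i + 1) := by
            have h2 : algebraMap k W (c i) * (r ξ ^ (j - i) * r ζ ^ i) =
                -r g' - ∑ l ∈ (Finset.range (j + 1)).erase i, algebraMap k W (c l) *
                  (r ξ ^ (j - l) * r ζ ^ l) := by
              rw [← hsum, ← Finset.add_sum_erase _ _ (Finset.mem_range.2 hij)]
              ring
            rw [h2]
            refine AddSubgroup.sub_mem _ (AddSubgroup.neg_mem _ ?_) (AddSubgroup.sum_mem _ ?_)
            · refine v.fil_mono ?_ (hmem (j + 1) g' hrem)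
              push_cast
              have : (j : ℤ) + 1 ≤ N := by exact_mod_cast hj
              have : (i : ℤ) ≤ j := by exact_mod_cast (Nat.lt_succ_iff.1 hij)
              linarith
            · intro l hl
              rw [Finset.mem_erase, Finset.mem_range] at hl
              rcases lt_or_gt_of_ne hl.1 with h3 | h3
              · rw [ihi l h3 hl.2, map_zero, zero_mul]
                exact AddSubgroup.zero_mem _
              · have h4 : r ξ ^ (j - l) * r ζ ^ l ∈ v.fil (j * N + i + 1) := by
                  right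
                  rw [(hmon j l (by omega)).2]
                  omega
                have := v.fil_mul (v.algebraMap_mem_fil (c l)) h4
                rwa [zero_add] at this
          have hci' : algebraMap k W (c i) ≠ 0 := by
            rwa [Ne, map_eq_zero_iff _ (algebraMap k W).injective]
          have h5 := hmon j i (by omega)
          have h6 := v.eq_zero_of_mem_fil hterm (by
            rw [v.ord_mul _ _ hci' h5.1, v.ord_algebraMap, h5.2]
            omega)
          exact mul_ne_zero hci' h5.1 h6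
      have : g = g' := by
        rw [hg', Finset.sum_eq_zero, sub_zero]
        intro i hi
        rw [hc0 i (Finset.mem_range.1 hi), map_zero, zero_mul]
      rw [this]
      exact hrem
  exact key N le_rfl

end Seshadri
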