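import Mathlib
import Pool.Agent.Helper61.Ses.Mult
import Pool.Agent.Helper36.Ses.WData

/-!
# The place of `W` over `T = 0` (offer O9)
-/

namespace Seshadri

open Pt

namespace Place

variable {k κ : Type} [Field k] [Field κ] [Algebra k κ] (v : Place k κ)

/-- the place `x ↦ ord (σ x)` -/
def comapEquiv (σ : κ ≃ₐ[k] κ) : Place k κ where
  ord x := v.ord (σ x)
  ord_zero := by rw [map_zero, v.ord_zero]
  ord_mul x y hx hy := by
    rw [map_mul]
    exact v.ord_mul _ _ (by simpa using hx) (by simpa using hy)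
  ord_add x y hx hy hxy := by
    rw [map_add]
    refine v.ord_add _ _ (by simpa using hx) (by simpa using hy) ?_
    intro h
    rw [← map_add] at h
    exact hxy ((map_eq_zero_iff σ σ.injective).1 h)
  ord_algebraMap c := by rw [σ.commutes, v.ord_algebraMap]
  exists_ord_eq_one := by
    obtain ⟨t, ht⟩ := v.exists_ord_eq_one
    exact ⟨σ.symm t, by rw [σ.apply_symm_apply, ht]⟩

lemma comapEquiv_ord (σ : κ ≃ₐ[k] κ) (x : κ) : (v.comapEquiv σ).ord x = v.ord (σ x) := rfl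

lemma mem_fil_comapEquiv (σ : κ ≃ₐ[k] κ) (x : κ) (m : ℤ) :
    x ∈ (v.comapEquiv σ).fil m ↔ σ x ∈ v.fil m := by
  rw [mem_fil, mem_fil, comapEquiv_ord]
  simp

/-- `a` has residue `c` -/
def Res (a : κ) (c : k) : Prop := a - algebraMap k κ c ∈ v.fil 1

variable {v}

lemma Res.add {a b : κ} {c d : k} (h : v.Res a c) (h' : v.Res b d) : v.Res (a + b) (c + d) := by
  unfold Res at *
  rw [map_add]
  have := AddSubgroup.add_mem _ h h'
  convert this using 1
  ring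

lemma Res.neg {a : κ} {c : k} (h : v.Res a c) : v.Res (-a) (-c) := by
  unfold Res at *
  rw [map_neg]
  have := AddSubgroup.neg_mem _ h
  convert this using 1
  ring

lemma Res.sub {a b : κ} {c d : k} (h : v.Res a c) (h' : v.Res b d) : v.Res (a - b) (c - d) := by
  rw [sub_eq_add_neg, sub_eq_add_neg]
  exact h.add h'.neg

lemma Res.mem {a : κ} {c : k} (h : v.Res a c) : a ∈ v.fil 0 := by
  have h1 : a = (a - algebraMap k κ c) + algebraMap k κ c := by ring
  rw [h1]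
  exact AddSubgroup.add_mem _ (v.fil_mono (by norm_num) h) (v.algebraMap_mem_fil c)

lemma Res.mul {a b : κ} {c d : k} (h : v.Res a c) (h' : v.Res b d) : v.Res (a * b) (c * d) := by
  have hb := h'.mem
  have hc := v.algebraMap_mem_fil c
  unfold Res at *
  rw [map_mul]
  have h1 := v.fil_mul h hb
  have h2 := v.fil_mul hc h'
  rw [add_zero] at h1
  rw [zero_add] at h2
  have := AddSubgroup.add_mem _ h1 h2
  convert this using 1
  ring

lemma Res.const (c : k) : v.Res (algebraMap k κ c) c := by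
  unfold Res
  rw [sub_self]
  exact AddSubgroup.zero_mem _

lemma Res.one : v.Res 1 1 := by
  have := Res.const (v := v) (1 : k)
  rwa [map_one] at this

lemma Res.ofNat (n : ℕ) [n.AtLeastTwo] : v.Res (OfNat.ofNat n : κ) (OfNat.ofNat n : k) := by
  have := Res.const (v := v) (OfNat.ofNat n : k)
  rwa [map_ofNat] at this

lemma Res.pow {a : κ} {c : k} (h : v.Res a c) (n : ℕ) : v.Res (a ^ n) (c ^ n) := by
  induction n with
  | zero => simpa using Res.one
  | succ n ih => rw [pow_succ, pow_succ]; exact ih.mul h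

lemma Res.ne_zero {a : κ} {c : k} (h : v.Res a c) (hc : c ≠ 0) : a ≠ 0 := by
  rintro rfl
  unfold Res at h
  rw [zero_sub] at h
  have h1 := AddSubgroup.neg_mem _ h
  rw [neg_neg] at h1
  have := v.eq_zero_of_mem_fil h1 (by rw [v.ord_algebraMap]; norm_num)
  exact hc ((map_eq_zero_iff _ (algebraMap k κ).injective).1 this)

lemma Res.ord_eq {a : κ} {c : k} (h : v.Res a c) (hc : c ≠ 0) : v.ord a = 0 := by
  have ha := h.ne_zero hc
  have h1 := h.mem.resolve_left ha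
  by_contra h2
  have h3 : a ∈ v.fil 1 := Or.inr (by omega)
  unfold Res at h
  have h4 := AddSubgroup.sub_mem _ h3 h
  rw [sub_sub_cancel] at h4
  have := v.eq_zero_of_mem_fil h4 (by rw [v.ord_algebraMap]; norm_num)
  exact hc ((map_eq_zero_iff _ (algebraMap k κ).injective).1 this)

lemma Res.inv {a : κ} {c : k} (h : v.Res a c) (hc : c ≠ 0) : v.Res a⁻¹ c⁻¹ := by
  have ha := h.ne_zero hc
  have h1 := h.ord_eq hc
  unfold Res at *
  have hc' : algebraMap k κ c ≠ 0 := by rwa [Ne, map_eq_zero_iff _ (algebraMap k κ).injective]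
  have h2 : a⁻¹ ∈ v.fil 0 := Or.inr (by rw [v.ord_inv, h1, neg_zero])
  have h3 := v.fil_mul (v.fil_mul h h2) (v.algebraMap_mem_fil c⁻¹)
  have h4 := AddSubgroup.neg_mem _ h3
  rw [map_inv₀] at h4 ⊢
  have h5 : a⁻¹ - (algebraMap k κ c)⁻¹ =
      -((a - algebraMap k κ c) * a⁻¹ * (algebraMap k κ c)⁻¹) := by
    field_simp
    ring
  rw [h5]
  simpa using h4

lemma Res.div {a b : κ} {c d : k} (h : v.Res a c) (h' : v.Res b d) (hd : d ≠ 0) :
    v.Res (a / b) (c / d) := by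
  rw [div_eq_mul_inv, div_eq_mul_inv]
  exact h.mul (h'.inv hd)

lemma Res.zero_of_mem {a : κ} (h : a ∈ v.fil 1) : v.Res a (0 : k) := by
  unfold Res
  rw [map_zero, sub_zero]
  exact h

lemma Res.congr {a a' : κ} {c c' : k} (h : v.Res a c) (ha : a' = a) (hc : c' = c) : v.Res a' c' := by
  rw [ha, hc]; exact h

/-- adding something of higher order -/
lemma ord_add_eq {a b : κ} (ha : a ≠ 0) (hb : b ∈ v.fil (v.ord a + 1)) :
    a + b ≠ 0 ∧ v.ord (a + b) = v.ord a := by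
  by_cases hb0 : b = 0
  · rw [hb0, add_zero]; exact ⟨ha, rfl⟩
  have hb1 := hb.resolve_left hb0
  have hne : a + b ≠ 0 := by
    intro h
    have : b = -a := by linear_combination h
    rw [this, v.ord_neg] at hb1
    omega
  refine ⟨hne, ?_⟩
  have h1 := v.ord_add a b ha hb0 hne
  rw [min_eq_left (by omega)] at h1
  by_contra h2
  have h3 : v.ord a + 1 ≤ v.ord (a + b) := by omega
  have h4 : a ∈ v.fil (v.ord a + 1) := by
    have h5 : a = (a + b) - b := by ring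
    have h6 : (a + b) - b ∈ v.fil (v.ord a + 1) :=
      AddSubgroup.sub_mem _ (v.mem_fil_of_le h3) (v.mem_fil_of_le hb1)
    rwa [← h5] at h6
  exact ha (v.eq_zero_of_mem_fil h4 (by omega))

lemma Res.unique {a : κ} {c d : k} (h : v.Res a c) (h' : v.Res a d) : c = d := by
  have h1 := h.sub h'
  rw [sub_self] at h1
  by_contra hcd
  exact h1.ne_zero (sub_ne_zero.2 hcd) rfl

lemma res_comapEquiv {σ : κ ≃ₐ[k] κ} {a : κ} {c : k} :
    (v.comapEquiv σ).Res a c ↔ v.Res (σ a) c := by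
  unfold Res
  rw [mem_fil_comapEquiv, map_sub, σ.commutes]

lemma mem_fil_zero_of_sq {a : κ} (h : a ^ 2 ∈ v.fil 0) : a ∈ v.fil 0 := by
  by_cases ha : a = 0
  · exact Or.inl ha
  right
  have h1 := h.resolve_left (pow_ne_zero 2 ha)
  rw [v.ord_pow _ _ ha] at h1
  push_cast at h1
  omega

lemma res_of_sq {a : κ} (h : v.Res (a ^ 2) (1 : k)) : v.Res a (1 : k) ∨ v.Res a (-1 : k) := by
  have h0 := mem_fil_zero_of_sq h.mem
  have h1 : (a - 1) * (a + 1) ∈ v.fil 1 := by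
    unfold Res at h
    rw [map_one] at h
    have : (a - 1) * (a + 1) = a ^ 2 - 1 := by ring
    rwa [this]
  have ha : a - 1 ∈ v.fil 0 := AddSubgroup.sub_mem _ h0 v.one_mem_fil
  have hb : a + 1 ∈ v.fil 0 := AddSubgroup.add_mem _ h0 v.one_mem_fil
  by_cases h2 : a - 1 = 0
  · left
    unfold Res
    rw [map_one, h2]
    exact AddSubgroup.zero_mem _
  by_cases h3 : a + 1 = 0
  · right
    unfold Res
    rw [map_neg, map_one, sub_neg_eq_add, h3]
    exact AddSubgroup.zero_mem _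
  have h4 := h1.resolve_left (mul_ne_zero h2 h3)
  rw [v.ord_mul _ _ h2 h3] at h4
  have h5 := ha.resolve_left h2
  have h6 := hb.resolve_left h3
  unfold Res
  rw [map_neg, map_one, sub_neg_eq_add]
  by_cases h7 : 1 ≤ v.ord (a - 1)
  · exact Or.inl (Or.inr h7)
  · exact Or.inr (Or.inr (by omega))

end Place

section W

variable {k : Type} [Field k] [IsAlgClosed k] [CharP k 7] {n : ℕ}

lemma seven_le_pow (hn : 0 < n) : 7 ≤ 7 ^ n := by
  calc 7 = 7 ^ 1 := (pow_one 7).symm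
    _ ≤ 7 ^ n := Nat.pow_le_pow_right (by norm_num) hn

lemma WData.exists_pos (D : WData k n) : ∃ v : Place k D.W, 0 < v.ord D.T := by
  by_contra h
  push Not at h
  have h1 := Place.sum_zeros D.curve D.T D.transc
  rw [D.deg, finsum_eq_zero_of_forall_eq_zero (fun v => by
    exact Int.toNat_of_nonpos (h v))] at h1
  norm_num at h1

lemma WData.res_T {D : WData k n} {v : Place k D.W} (h : D.T ∈ v.fil 1) : v.Res D.T (0 : k) :=
  Place.Res.zero_of_mem h

lemma WData.res_T_pow {D : WData k n} {v : Place k D.W} (h : D.T ∈ v.fil 1) {j : ℕ} (hj : j ≠ 0) :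
    v.Res (D.T ^ j) (0 : k) :=
  ((WData.res_T h).pow j).congr rfl (zero_pow hj).symm

lemma WData.res_c {D : WData k n} {v : Place k D.W} (h : D.T ∈ v.fil 1) (j : ℕ) :
    v.Res ((1 + D.T ^ 6) ^ j) (1 : k) :=
  ((Place.Res.one.add (WData.res_T_pow h (j := 6) (by norm_num))).pow j).congr rfl (by simp)

lemma WData.res_u {D : WData k n} {v : Place k D.W} (h : D.T ∈ v.fil 1) :
    v.Res D.u (1 : k) ∨ v.Res D.u (-1 : k) := by
  apply Place.res_of_sq
  rw [D.hu]
  exact ((WData.res_T_pow h (j := 6) (by norm_num)).add Place.Res.one).congr rfl (by simp)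

lemma WData.res_m (hn : 0 < n) {D : WData k n} {v : Place k D.W} (h : D.T ∈ v.fil 1) :
    v.Res D.m (1 : k) ∨ v.Res D.m (-1 : k) := by
  have hq := seven_le_pow hn
  apply Place.res_of_sq
  rw [D.hm]
  refine (((Place.Res.one.add (WData.res_T_pow h (j := 2 * 7 ^ n + 2) (by omega))).add
    ((Place.Res.ofNat 2).mul (WData.res_T_pow h (j := 4 * 7 ^ n - 2) (by omega)))).sub
    (((Place.Res.ofNat 2).mul (WData.res_T_pow h (j := 7 ^ n - 2) (by omega))).mul
      (WData.res_c h ((7 ^ n + 1) / 2)))).congr rfl (by ring)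

/-- the good places -/
def WData.Good (D : WData k n) (v : Place k D.W) (a b : k) : Prop :=
  D.T ∈ v.fil 1 ∧ v.Res D.u a ∧ v.Res D.m b

lemma WData.Good.theta₁ {D : WData k n} {v : Place k D.W} {a b : k} (h : D.Good v a b) :
    D.Good (v.comapEquiv D.θ₁) a (-b) := by
  obtain ⟨h1, h2, h3⟩ := h
  refine ⟨?_, ?_, ?_⟩
  · rw [Place.mem_fil_comapEquiv, D.θ₁T]; exact h1
  · rw [Place.res_comapEquiv, D.θ₁u]; exact h2
  · rw [Place.res_comapEquiv, D.θ₁m]; exact h3.neg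

lemma WData.Good.theta₂ {D : WData k n} {v : Place k D.W} {a b : k} (h : D.Good v a b) :
    D.Good (v.comapEquiv D.θ₂) (-a) b := by
  obtain ⟨h1, h2, h3⟩ := h
  refine ⟨?_, ?_, ?_⟩
  · rw [Place.mem_fil_comapEquiv, D.θ₂T]; exact h1
  · rw [Place.res_comapEquiv, D.θ₂u]; exact h2.neg
  · rw [Place.res_comapEquiv, D.θ₂m]; exact h3

lemma WData.exists_good (hn : 0 < n) (D : WData k n) : ∃ v : Place k D.W, D.Good v 1 1 := by
  obtain ⟨v, hv⟩ := D.exists_pos
  have hT : D.T ∈ v.fil 1 := Or.inr hv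
  rcases WData.res_u hT with hu | hu <;> rcases WData.res_m hn hT with hm | hm
  · exact ⟨v, hT, hu, hm⟩
  · have h : D.Good v 1 (-1) := ⟨hT, hu, hm⟩
    have := h.theta₁
    rw [neg_neg] at this
    exact ⟨_, this⟩
  · have h : D.Good v (-1) 1 := ⟨hT, hu, hm⟩
    have := h.theta₂
    rw [neg_neg] at this
    exact ⟨_, this⟩
  · have h : D.Good v (-1) (-1) := ⟨hT, hu, hm⟩
    have := h.theta₁.theta₂
    rw [neg_neg] at this
    exact ⟨_, this⟩

lemma WData.Good.ord_T {D : WData k n} {v : Place k D.W} (h : D.Good v 1 1) (hT0 : D.T ≠ 0) :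
    v.ord D.T = 1 := by
  classical
  have hpos : 1 ≤ v.ord D.T := h.1.resolve_left hT0
  let sg : Bool → k := fun a => if a then 1 else -1
  have hsg : Function.Injective sg := by
    have h2 : (2 : k) ≠ 0 := two_ne
    intro a b hab
    cases a <;> cases b <;> simp only [sg, if_true, if_false, Bool.false_eq_true] at hab <;>
      first | rfl | exact absurd (by linear_combination hab) h2 |
        exact absurd (by linear_combination -hab) h2
  let g : Bool × Bool → Place k D.W := fun p =>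
    match p with
    | (true, true) => v
    | (true, false) => v.comapEquiv D.θ₁
    | (false, true) => v.comapEquiv D.θ₂
    | (false, false) => (v.comapEquiv D.θ₁).comapEquiv D.θ₂
  have hg : ∀ p, D.Good (g p) (sg p.1) (sg p.2) := by
    rintro ⟨a, b⟩
    cases a <;> cases b
    · exact h.theta₁.theta₂
    · exact h.theta₂
    · exact h.theta₁
    · exact h
  have hgT : ∀ p, (g p).ord D.T = v.ord D.T := by
    rintro ⟨a, b⟩
    cases a <;> cases b <;> simp [g, Place.comapEquiv_ord, D.θ₁T, D.θ₂T]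
  have hinj : Function.Injective g := by
    intro p p' hpp
    have h1 := hg p
    have h2 := hg p'
    rw [hpp] at h1
    exact Prod.ext (hsg (h1.2.1.unique h2.2.1)) (hsg (h1.2.2.unique h2.2.2))
  have hsum := Place.sum_zeros D.curve D.T D.transc
  have hfin := Place.finite_ord_ne D.curve D.T
  rw [D.deg, finsum_eq_sum_of_support_subset (s := hfin.toFinset ∪ Finset.univ.map ⟨g, hinj⟩) _
    (by
      intro w hw
      simp only [Finset.coe_union, Set.Finite.coe_toFinset, Set.mem_union, Set.mem_ofPred_eq]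
      left
      intro h0
      rw [Function.mem_support, h0] at hw
      exact hw rfl)] at hsum
  have hle := Finset.sum_le_sum_of_subset (f := fun w : Place k D.W => (w.ord D.T).toNat)
    (Finset.subset_union_right (s₁ := hfin.toFinset) (s₂ := Finset.univ.map ⟨g, hinj⟩))
  rw [hsum, Finset.sum_map] at hle
  simp only [Function.Embedding.coeFn_mk, hgT, Finset.sum_const, Finset.card_univ,
    Fintype.card_prod, Fintype.card_bool, smul_eq_mul] at hle
  omega

/-- orders of the differences -/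
lemma wPlace_aux {κ : Type} [Field κ] [Algebra k κ] {v : Place k κ} {T z : κ} {q : ℕ}
    (hT0 : T ≠ 0) (hz0 : z ≠ 0) (hT : v.ord T = 1) (hz : v.ord z = 1)
    {B : κ} (hB : v.Res B (-2 : k)) (hd : z ^ 2 - T ^ 2 = T ^ q * B) :
    z ^ 2 - T ^ 2 ≠ 0 ∧ v.ord (z ^ 2 - T ^ 2) = q ∧
      T⁻¹ ^ 2 - z⁻¹ ^ 2 ≠ 0 ∧ v.ord (T⁻¹ ^ 2 - z⁻¹ ^ 2) = q - 4 := by
  have h2 : (-2 : k) ≠ 0 := neg_ne_zero.2 two_ne
  have hB0 := hB.ne_zero h2
  have hB1 := hB.ord_eq h2
  have h3 : z ^ 2 - T ^ 2 ≠ 0 := by rw [hd]; exact mul_ne_zero (pow_ne_zero _ hT0) hB0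
  have h4 : v.ord (z ^ 2 - T ^ 2) = q := by
    rw [hd, v.ord_mul _ _ (pow_ne_zero _ hT0) hB0, v.ord_pow _ _ hT0, hT, hB1]; ring
  have h5 : T⁻¹ ^ 2 - z⁻¹ ^ 2 = (z ^ 2 - T ^ 2) * (T⁻¹ ^ 2 * z⁻¹ ^ 2) := by
    field_simp
  have h6 : T⁻¹ ^ 2 * z⁻¹ ^ 2 ≠ 0 :=
    mul_ne_zero (pow_ne_zero _ (inv_ne_zero hT0)) (pow_ne_zero _ (inv_ne_zero hz0))
  refine ⟨h3, h4, ?_, ?_⟩
  · rw [h5]; exact mul_ne_zero h3 h6
  · rw [h5, v.ord_mul _ _ h3 h6, h4, v.ord_mul _ _ (pow_ne_zero _ (inv_ne_zero hT0))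
      (pow_ne_zero _ (inv_ne_zero hz0)), v.ord_pow _ _ (inv_ne_zero hT0),
      v.ord_pow _ _ (inv_ne_zero hz0), v.ord_inv, v.ord_inv, hT, hz]
    push_cast
    ring

/-- (O9) the place over `T = 0` at which `u = 1`, `m = 1`. -/
theorem wPlace (hn : 0 < n) (D : WData k n) (b : WPoint D) :
    ∃ v : Place k D.W, v.ord D.T = 1 ∧ v.ord b.z = 1 ∧
      (b.w - 1 = 0 ∨ 0 < v.ord (b.w - 1)) ∧
      ∃ (X Y : D.W) (h : Y ^ 2 = X ^ 3 + 1),
        pt2 D.T D.u b.hT0 D.hu - pt2 b.z b.w b.hz0 b.hw = mk X Y h ∧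
        X ≠ 0 ∧ Y ≠ 0 ∧
        v.ord X = -2 * ((7 : ℤ) ^ n - 1) ∧ v.ord Y = -3 * ((7 : ℤ) ^ n - 1) := by
  obtain ⟨v, hv⟩ := D.exists_good hn
  have hTT := hv.ord_T b.hT0
  obtain ⟨hT, hu, hm⟩ := hv
  have hq := seven_le_pow hn
  set q := 7 ^ n with hqdef
  have hT0 := b.hT0
  have hz0 := b.hz0
  have two : (2 : k) ≠ 0 := two_ne
  -- the denominator
  have hden : v.Res (1 - D.T ^ (2 * q + 2)) (1 : k) :=
    (Place.Res.one.sub (WData.res_T_pow hT (j := 2 * q + 2) (by omega))).congr rfl (by ring)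
  have hden0 := hden.ne_zero one_ne_zero
  have hden1 := hden.ord_eq one_ne_zero
  have hm0 := hm.ne_zero one_ne_zero
  have hm1 := hm.ord_eq one_ne_zero
  -- `z / T`
  have hzT : b.z / D.T = D.m / (1 - D.T ^ (2 * q + 2)) := by
    rw [b.hz, ← hqdef]; field_simp
  have hzT1 : v.Res (b.z / D.T) (1 : k) := by
    rw [hzT]
    exact (hm.div hden one_ne_zero).congr rfl (by rw [div_one])
  have hz1 : v.ord b.z = 1 := by
    have h1 := hzT1.ord_eq one_ne_zero
    rw [v.ord_div _ _ hz0 hT0, hTT] at h1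
    omega
  -- `z² - T²`
  set B : D.W := (3 * D.T ^ (q + 4) + 2 * D.T ^ (3 * q) - D.T ^ (3 * q + 6)
    - 2 * (1 + D.T ^ 6) ^ ((q + 1) / 2)) / (1 - D.T ^ (2 * q + 2)) ^ 2 with hBdef
  have hB : v.Res B (-2 : k) := by
    rw [hBdef]
    have a1 := (Place.Res.ofNat (v := v) 3).mul (WData.res_T_pow hT (j := q + 4) (by omega))
    have a2 := (Place.Res.ofNat (v := v) 2).mul (WData.res_T_pow hT (j := 3 * q) (by omega))
    have a3 := WData.res_T_pow hT (j := 3 * q + 6) (by omega)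
    have a4 := (Place.Res.ofNat (v := v) 2).mul (WData.res_c hT ((q + 1) / 2))
    refine ((((a1.add a2).sub a3).sub a4).div (hden.pow 2) (by simp)).congr rfl ?_
    change (-2 : k) = (3 * 0 + 2 * 0 - 0 - 2 * 1) / 1 ^ 2
    norm_num
  have hd : b.z ^ 2 - D.T ^ 2 = D.T ^ q * B := by
    obtain ⟨p, hp⟩ : ∃ p, q = p + 2 := ⟨q - 2, by omega⟩
    have hm2 := D.hm
    rw [← hqdef] at hm2
    rw [hBdef, b.hz, ← hqdef]
    generalize (q + 1) / 2 = e at *
    rw [show 4 * q - 2 = 4 * p + 6 by omega, show q - 2 = p by omega] at hm2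
    rw [hp] at hm2 hden0 ⊢
    field_simp
    rw [hm2]
    ring
  obtain ⟨h1, h2, h3, h4⟩ := wPlace_aux hT0 hz0 hTT hz1 hB hd
  -- `w`
  have hw : v.Res b.w (1 : k) := by
    have e1 : b.w = -(D.u * ((1 + D.T ^ 6) ^ ((q - 1) / 2) - D.T ^ (3 * q)) * B /
        (1 - D.T ^ (2 * q + 2)) + D.u) := by
      have h := b.w_eq
      rw [← hqdef, hd] at h
      rw [h]
      have h5 : D.T⁻¹ ^ q * D.T ^ q = 1 := by rw [← mul_pow, inv_mul_cancel₀ hT0, one_pow]
      generalize (1 + D.T ^ 6) ^ ((q - 1) / 2) = C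
      generalize D.T ^ (3 * q) = T3 at *
      generalize (1 - D.T ^ (2 * q + 2)) = d at *
      have h6 : D.u * D.T⁻¹ ^ q * (C - T3) / d * (D.T ^ q * B) =
          (D.T⁻¹ ^ q * D.T ^ q) * (D.u * (C - T3) * B / d) := by ring
      rw [h6, h5, one_mul]
    rw [e1]
    refine ((((hu.mul ((WData.res_c hT ((q - 1) / 2)).sub
      (WData.res_T_pow hT (j := 3 * q) (by omega)))).mul hB).div hden one_ne_zero).add
        hu).neg.congr rfl ?_
    ring
  have hw1 : b.w - 1 = 0 ∨ 0 < v.ord (b.w - 1) := by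
    have := hw
    unfold Place.Res at this
    rw [map_one] at this
    rcases this with h | h
    · exact Or.inl h
    · exact Or.inr h
  refine ⟨v, hTT, hz1, hw1, ?_⟩
  -- the difference of the two points
  have hE₁ : (D.u * D.T⁻¹ ^ 3) ^ 2 = (D.T⁻¹ ^ 2) ^ 3 + 1 := by
    rw [mul_pow, D.hu]; field_simp; ring
  have hE₂ : (b.w * b.z⁻¹ ^ 3) ^ 2 = (b.z⁻¹ ^ 2) ^ 3 + 1 := by
    rw [mul_pow, b.hw]; field_simp; ring
  have hE₂' : (-(b.w * b.z⁻¹ ^ 3)) ^ 2 = (b.z⁻¹ ^ 2) ^ 3 + 1 := by rw [neg_sq, hE₂]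
  have hne : ¬(D.T⁻¹ ^ 2 = b.z⁻¹ ^ 2 ∧ D.u * D.T⁻¹ ^ 3 = -(-(b.w * b.z⁻¹ ^ 3))) := by
    rintro ⟨h, -⟩
    exact h3 (sub_eq_zero.2 h)
  obtain ⟨l, hl1, hl2⟩ := exists_slope hE₁ hE₂' hne
  have hsum : pt2 D.T D.u b.hT0 D.hu - pt2 b.z b.w b.hz0 b.hw =
      mk (l ^ 2 - D.T⁻¹ ^ 2 - b.z⁻¹ ^ 2) _ (third_eq hE₁ hl1 hl2) := by
    unfold pt2
    rw [sub_eq_add_neg, neg_mk hE₂ hE₂', mk_add_mk hE₁ hE₂' hne hl1 hl2]
  -- order of the slope
  have hnum : D.u * D.T⁻¹ ^ 3 - -(b.w * b.z⁻¹ ^ 3) =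
      D.T⁻¹ ^ 3 * (D.u + b.w * ((b.z / D.T)⁻¹) ^ 3) := by
    field_simp
    ring
  have hnum1 : v.Res (D.u + b.w * ((b.z / D.T)⁻¹) ^ 3) (2 : k) :=
    (hu.add (hw.mul ((hzT1.inv one_ne_zero).pow 3))).congr rfl (by norm_num)
  have hnum2 := hnum1.ne_zero two
  have hnum3 := hnum1.ord_eq two
  have hTi : D.T⁻¹ ^ 3 ≠ 0 := pow_ne_zero _ (inv_ne_zero hT0)
  have hordnum : v.ord (D.u * D.T⁻¹ ^ 3 - -(b.w * b.z⁻¹ ^ 3)) = -3 := by
    rw [hnum, v.ord_mul _ _ hTi hnum2, hnum3, v.ord_pow _ _ (inv_ne_zero hT0), v.ord_inv, hTT]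
    norm_num
  have hl0 : l ≠ 0 := by
    rintro rfl
    rw [zero_mul] at hl1
    rw [← hl1, v.ord_zero] at hordnum
    norm_num at hordnum
  have hlord : v.ord l = 1 - q := by
    have h5 := v.ord_mul l _ hl0 h3
    rw [hl1, hordnum, h4] at h5
    omega
  have hl2ord : v.ord (l ^ 2) = 2 - 2 * q := by
    rw [v.ord_pow _ _ hl0, hlord]; push_cast; ring
  have hrest : -D.T⁻¹ ^ 2 - b.z⁻¹ ^ 2 ∈ v.fil (v.ord (l ^ 2) + 1) := by
    rw [hl2ord]
    refine AddSubgroup.sub_mem _ (AddSubgroup.neg_mem _ ?_) ?_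
    · right
      rw [v.ord_pow _ _ (inv_ne_zero hT0), v.ord_inv, hTT]
      push_cast; omega
    · right
      rw [v.ord_pow _ _ (inv_ne_zero hz0), v.ord_inv, hz1]
      push_cast; omega
  obtain ⟨hX0, hXord⟩ := Place.ord_add_eq (pow_ne_zero 2 hl0) hrest
  have eX : l ^ 2 + (-D.T⁻¹ ^ 2 - b.z⁻¹ ^ 2) = l ^ 2 - D.T⁻¹ ^ 2 - b.z⁻¹ ^ 2 := by ring
  rw [eX] at hX0 hXord
  rw [hl2ord] at hXord
  refine ⟨_, _, third_eq hE₁ hl1 hl2, hsum, hX0, ?_, ?_, ?_⟩
  all_goals
    have hY := third_eq hE₁ hl1 hl2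
    set X := l ^ 2 - D.T⁻¹ ^ 2 - b.z⁻¹ ^ 2 with hX
    set Y := -(l * (X - D.T⁻¹ ^ 2) + D.u * D.T⁻¹ ^ 3) with hYdef
    have hX3 : v.ord (X ^ 3) = 6 - 6 * q := by
      rw [v.ord_pow _ _ hX0, hXord]; push_cast; ring
    have h5 : (1 : D.W) ∈ v.fil (v.ord (X ^ 3) + 1) := by
      right
      rw [v.ord_one, hX3]
      omega
    obtain ⟨h6, h7⟩ := Place.ord_add_eq (pow_ne_zero 3 hX0) h5
    rw [← hY] at h6 h7
    have hY0 : Y ≠ 0 := by
      intro h
      rw [h] at h6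
      exact h6 (by norm_num)
    have hqz : (q : ℤ) = 7 ^ n := by rw [hqdef]; push_cast; rfl
  · exact hY0
  · rw [hXord, hqz]; ring
  · rw [v.ord_pow _ _ hY0, hX3] at h7
    rw [← hqz]
    push_cast at h7
    linarith

end W

end Seshadri
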